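import Pool.Agent.H27.L1.H34.GU.Targets1

/-!
# The real parts of the parameters of a spherical form are bounded (MP_52e316_nt, board ghk)
-/

set_option autoImplicit false

namespace Pool.Agent.H27.L1.H20.GK

open MeasureTheory Pool.Agent.H27.L1.H34.GM Pool.Agent.H27.L1.H34.GZ Pool.Agent.H27.L1.H34.GU

/-- the real parts of the parameters are bounded -/
def T_TUB : Prop := ∀ (m N : ℕ) [NeZero N] (T : ℕ → Finset (ZM m)) (F : Mat m → VN m N → ℂ)
  (lam : ℕ → ℂ) (mu : Fin m → ℂ), 1 ≤ m → EigU m N T F lam mu → NZ F →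
  ∀ j, |(mu j).re| ≤ (m : ℝ) ^ 2

theorem pf_TUB (h : T_APU) : T_TUB := by
  intro m N _ T F lam mu hm hF hnz j
  have hup := h m N T F lam mu hm hF hnz
  have hmR : (1 : ℝ) ≤ m := by exact_mod_cast hm
  have hsum : ∑ i, (mu i).re = 0 := by
    have h1 := congrArg Complex.re hF.tr0
    rwa [Complex.re_sum, Complex.zero_re] at h1
  have hsplit : (mu j).re + ∑ i ∈ Finset.univ.erase j, (mu i).re = 0 := by
    have h1 := Finset.add_sum_erase Finset.univ (fun i => (mu i).re) (Finset.mem_univ j)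
    exact h1.trans hsum
  have hrest : ∑ i ∈ Finset.univ.erase j, (mu i).re ≤ ((m : ℝ) - 1) * (((m : ℝ) - 1) / 2) := by
    calc ∑ i ∈ Finset.univ.erase j, (mu i).re ≤
        ∑ _i ∈ Finset.univ.erase j, ((m : ℝ) - 1) / 2 := Finset.sum_le_sum fun i _ => hup i
      _ = ((m : ℝ) - 1) * (((m : ℝ) - 1) / 2) := by
        rw [Finset.sum_const, Finset.card_erase_of_mem (Finset.mem_univ j), Finset.card_univ,
          Fintype.card_fin, nsmul_eq_mul, Nat.cast_sub hm, Nat.cast_one]
  rw [abs_le]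
  constructor
  · nlinarith
  · have h2 := hup j
    nlinarith

end Pool.Agent.H27.L1.H20.GK
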